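import Pool.Agent.Work.MP_b30479_gt.LT.Exact

/-!
# Closed kernels for twist regions with two, three and four crossings
-/

namespace Pool.Agent.Work.MP_b30479_gt.LT

open Finset VOL AX MeasureTheory
open TB hiding PP
open DT (ee ee_add ee_ne ee_zero ee_neg ee_pow ee_int ee_half nn_ne tt_pow)

/-! ### the q-binomial theorem -/

lemma qbin {s : ℕ} {t : ℂ} (h : IsPrimitiveRoot t (2 * s + 1)) (y : ℂ) : ∀ N : ℕ, N ≤ 2 * s →
    qf t N * ∑ r ∈ range (N + 1), t ^ (r.choose 2) * y ^ r / (qf t r * qf t (N - r)) =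
      ∏ l ∈ range N, (1 + y * t ^ l) := by
  intro N
  induction N with
  | zero => intro _; simp
  | succ N ih =>
    intro hN
    have key : (1 - t ^ (N + 1)) * ∑ r ∈ range (N + 1 + 1),
        t ^ (r.choose 2) * y ^ r / (qf t r * qf t (N + 1 - r)) =
        (∑ r ∈ range (N + 1), t ^ (r.choose 2) * y ^ r / (qf t r * qf t (N - r))) *
          (1 + y * t ^ N) := by
      rw [mul_add, mul_one, Finset.mul_sum]
      have e1 : ∀ r ∈ range (N + 1 + 1),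
          (1 - t ^ (N + 1)) * (t ^ (r.choose 2) * y ^ r / (qf t r * qf t (N + 1 - r))) =
          (if r < N + 1 then t ^ (r.choose 2) * y ^ r / (qf t r * qf t (N - r)) else 0) +
          (if 0 < r then t ^ ((r - 1).choose 2) * y ^ (r - 1) /
            (qf t (r - 1) * qf t (N - (r - 1))) * (y * t ^ N) else 0) := by
        intro r hr
        rw [mem_range] at hr
        rcases Nat.eq_zero_or_pos r with rfl | hr0
        · have n1 := one_sub_pow_ne h (show 0 < N + 1 by omega) hN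
          have n2 := qf_ne_zero h (show N ≤ 2 * s by omega)
          rw [if_pos (by omega), if_neg (by omega), Nat.sub_zero, Nat.sub_zero, qf_succ]
          simp only [Nat.choose_zero_succ, pow_zero, qf_zero, add_zero, mul_one, one_mul]
          field_simp
        · obtain ⟨r, rfl⟩ : ∃ r', r = r' + 1 := ⟨r - 1, by omega⟩
          rw [Nat.add_sub_cancel, if_pos (show 0 < r + 1 by omega)]
          have ch : (r + 1).choose 2 = r.choose 2 + r := by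
            rw [Nat.choose_succ_succ' r 1, Nat.choose_one_right, add_comm]
          have m1 := one_sub_pow_ne h (show 0 < r + 1 by omega) (by omega)
          have m2 := qf_ne_zero h (show r ≤ 2 * s by omega)
          rcases Nat.lt_or_ge (r + 1) (N + 1) with h1 | h1
          · obtain ⟨d, rfl⟩ : ∃ d, N = r + 1 + d := ⟨N - (r + 1), by omega⟩
            rw [if_pos h1, show r + 1 + d + 1 - (r + 1) = d + 1 by omega,
              show r + 1 + d - (r + 1) = d by omega, show r + 1 + d - r = d + 1 by omega, ch,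
              qf_succ t r, qf_succ t d]
            have m3 := one_sub_pow_ne h (show 0 < d + 1 by omega) (by omega)
            have m4 := qf_ne_zero h (show d ≤ 2 * s by omega)
            have e2 : t ^ (r + 1 + d + 1) = t ^ (r + 1) * t ^ (d + 1) := by
              rw [← pow_add]; rfl
            have e3 : t ^ (r + 1 + d) = t ^ r * t ^ (d + 1) := by
              rw [← pow_add]; congr 1; omega
            rw [e2, e3, pow_add t (r.choose 2) r, pow_succ y r]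
            field_simp
            ring
          · have hrN : r = N := by omega
            subst hrN
            rw [if_neg (by omega), show r + 1 - (r + 1) = 0 by omega, Nat.sub_self, ch,
              qf_succ t r, qf_zero, mul_one, mul_one, zero_add, pow_add t (r.choose 2) r,
              pow_succ y r]
            field_simp
      rw [Finset.sum_congr rfl e1, Finset.sum_add_distrib, Finset.sum_range_succ,
        if_neg (lt_irrefl _), add_zero, Finset.sum_range_succ' (fun r => if 0 < r then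
          t ^ ((r - 1).choose 2) * y ^ (r - 1) / (qf t (r - 1) * qf t (N - (r - 1))) *
          (y * t ^ N) else 0), if_neg (lt_irrefl _), add_zero, Finset.sum_mul]
      congr 1
      refine Finset.sum_congr rfl fun r hr => ?_
      rw [mem_range] at hr
      rw [if_pos hr]
    rw [prod_range_succ, ← ih (by omega), qf_succ, mul_assoc, key]
    ring

/-! ### one crossing -/

lemma fSc_ne {s m : ℕ} (hm : m ≤ 2 * s) : (fS (2 * s + 1) m : ℂ) ≠ 0 := by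
  exact_mod_cast (fS_pos (n := 2 * s + 1) (m := m) (by omega)).ne'

lemma fSc_refl {s m : ℕ} (hm : m ≤ 2 * s) :
    (fS (2 * s + 1) m : ℂ) * (fS (2 * s + 1) (2 * s - m) : ℂ) = ((2 * s + 1 : ℕ) : ℂ) := by
  have := fS_refl (n := 2 * s + 1) (m := m) (by omega)
  rw [show 2 * s + 1 - 1 - m = 2 * s - m by omega] at this
  exact_mod_cast this

/-- the entries of the matrix of `σ_1` -/
theorem gz_all {s j k : ℕ} (hjk : j ≤ k) (hk : k ≤ 2 * s) : gz s (tt s) 1 j k =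
    ee s ((s : ℂ) ^ 2 + k * ((2 * s + 1 : ℕ) : ℂ) / 2 + k * (1 + j) / 2) *
      (fS (2 * s + 1) j : ℂ) / ((fS (2 * s + 1) k : ℂ) * (fS (2 * s + 1) (k - j) : ℂ)) := by
  have hj0 := fSc_ne (s := s) (m := j) (by omega)
  have hk0 := fSc_ne (s := s) (m := k) (by omega)
  have hkj0 := fSc_ne (s := s) (m := k - j) (by omega)
  have h2 : (-1 : ℂ) ^ k = ee s (-((k : ℂ) * (((2 * s + 1 : ℕ) : ℂ) / 2))) := by
    rw [ee_neg, ← ee_pow, ee_half, ← inv_pow]
    norm_num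
  have h3 : ((k + 1).choose 2 : ℂ) = (k : ℂ) * (k + 1) / 2 := by
    rw [Nat.cast_choose_two]
    push_cast
    ring
  rw [gz, if_pos hjk, VC.pz_one s j k hjk hk, VC.qf_ee, VC.qf_ee, VC.qf_ee, h2, ← pow_mul, tt_pow,
    tt_pow, tt_pow, one_pow, mul_one]
  have n1 := ee_ne s ((j : ℂ) * (j + 1) / 4 - j * ((2 * s + 1 : ℕ) : ℂ) / 4)
  have n2 := ee_ne s ((k : ℂ) * (k + 1) / 4 - k * ((2 * s + 1 : ℕ) : ℂ) / 4)
  have n3 := ee_ne s (((k - j : ℕ) : ℂ) * (((k - j : ℕ) : ℂ) + 1) / 4 -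
    ((k - j : ℕ) : ℂ) * ((2 * s + 1 : ℕ) : ℂ) / 4)
  have h4 : ee s ((s * s : ℕ) : ℂ) * ee s (-((k : ℂ) * (((2 * s + 1 : ℕ) : ℂ) / 2))) *
      ee s ((s * (k + j) : ℕ) : ℂ) * ee s (((k + 1).choose 2 + k : ℕ) : ℂ) *
      ee s ((j : ℂ) * (j + 1) / 4 - j * ((2 * s + 1 : ℕ) : ℂ) / 4) =
      ee s ((s : ℂ) ^ 2 + k * ((2 * s + 1 : ℕ) : ℂ) / 2 + k * (1 + j) / 2) *
      (ee s ((k : ℂ) * (k + 1) / 4 - k * ((2 * s + 1 : ℕ) : ℂ) / 4) *
        ee s (((k - j : ℕ) : ℂ) * (((k - j : ℕ) : ℂ) + 1) / 4 -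
          ((k - j : ℕ) : ℂ) * ((2 * s + 1 : ℕ) : ℂ) / 4)) := by
    simp only [← ee_add]
    congr 1
    rw [Nat.cast_sub hjk]
    push_cast [h3]
    ring
  generalize ee s ((j : ℂ) * (j + 1) / 4 - j * ((2 * s + 1 : ℕ) : ℂ) / 4) = E1 at *
  generalize ee s ((k : ℂ) * (k + 1) / 4 - k * ((2 * s + 1 : ℕ) : ℂ) / 4) = E2 at *
  generalize ee s (((k - j : ℕ) : ℂ) * (((k - j : ℕ) : ℂ) + 1) / 4 -
    ((k - j : ℕ) : ℂ) * ((2 * s + 1 : ℕ) : ℂ) / 4) = E3 at *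
  generalize ee s ((s : ℂ) ^ 2 + k * ((2 * s + 1 : ℕ) : ℂ) / 2 + k * (1 + j) / 2) = E4 at *
  generalize ee s ((s * s : ℕ) : ℂ) * ee s (-((k : ℂ) * (((2 * s + 1 : ℕ) : ℂ) / 2))) *
      ee s ((s * (k + j) : ℕ) : ℂ) * ee s (((k + 1).choose 2 + k : ℕ) : ℂ) = E5 at *
  field_simp
  linear_combination h4

lemma AA_eq {s : ℕ} (k j : Fin (2 * s + 1)) : AA s k j =
    if (j : ℕ) ≤ k then ((fS (2 * s + 1) k / (fS (2 * s + 1) j * fS (2 * s + 1) (k - j)) : ℝ) : ℂ) *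
      ee s ((s : ℂ) ^ 2 + k * ((2 * s + 1 : ℕ) : ℂ) / 2 + k * (1 + j) / 2) else 0 := by
  have hk := k.isLt
  have hj := j.isLt
  unfold AA
  split_ifs with hjk
  · have hj0 := fSc_ne (s := s) (m := j) (by omega)
    have hk0 := fSc_ne (s := s) (m := k) (by omega)
    have hkj0 := fSc_ne (s := s) (m := k - j) (by omega)
    rw [gz_all hjk (by omega), qq_fS (by omega), qq_fS (by omega)]
    push_cast
    field_simp
  · rw [gz_lt (by omega), zero_mul]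

/-! ### two crossings -/

lemma AA_sq {s : ℕ} (k j : Fin (2 * s + 1)) : (AA s ^ 2) k j =
    if (j : ℕ) ≤ k then
      ((fS (2 * s + 1) k ^ 2 / (fS (2 * s + 1) j ^ 2 * fS (2 * s + 1) (k - j)) : ℝ) : ℂ) *
      ee s (2 * (s : ℂ) ^ 2 + ((k : ℂ) + j) ^ 2 / 4 + ((2 * s + 1 : ℕ) : ℂ) * (k + 3 * j) / 4 +
        (3 * k + j) / 4) else 0 := by
  have hk := k.isLt
  have hj := j.isLt
  have hp := tt_prim s
  rw [pow_two, Matrix.mul_apply]
  have e0 : ∀ m : Fin (2 * s + 1), AA s k m * AA s m j = if (j : ℕ) ≤ m ∧ (m : ℕ) ≤ k then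
      ((fS (2 * s + 1) k / fS (2 * s + 1) j : ℝ) : ℂ) *
      (((1 / (fS (2 * s + 1) (m - j) * fS (2 * s + 1) (k - m)) : ℝ) : ℂ) *
      ee s (2 * (s : ℂ) ^ 2 + k * ((2 * s + 1 : ℕ) : ℂ) / 2 + k / 2 +
        m * (((2 * s + 1 : ℕ) : ℂ) + 1 + k + j) / 2)) else 0 := by
    intro m
    have hm := m.isLt
    rw [AA_eq, AA_eq]
    by_cases h1 : (m : ℕ) ≤ k
    · by_cases h2 : (j : ℕ) ≤ m
      · rw [if_pos h1, if_pos h2, if_pos ⟨h2, h1⟩]
        have n1 := (fS_pos (n := 2 * s + 1) (m := m) (by omega)).ne'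
        have n2 := (fS_pos (n := 2 * s + 1) (m := j) (by omega)).ne'
        have n3 := (fS_pos (n := 2 * s + 1) (m := m - j) (by omega)).ne'
        have n4 := (fS_pos (n := 2 * s + 1) (m := k - m) (by omega)).ne'
        have e3 : fS (2 * s + 1) k / (fS (2 * s + 1) m * fS (2 * s + 1) (k - m)) *
            (fS (2 * s + 1) m / (fS (2 * s + 1) j * fS (2 * s + 1) (m - j))) =
            fS (2 * s + 1) k / fS (2 * s + 1) j *
            (1 / (fS (2 * s + 1) (m - j) * fS (2 * s + 1) (k - m))) := by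
          field_simp
        have e4 : ee s (2 * (s : ℂ) ^ 2 + k * ((2 * s + 1 : ℕ) : ℂ) / 2 + k / 2 +
            m * (((2 * s + 1 : ℕ) : ℂ) + 1 + k + j) / 2) =
            ee s ((s : ℂ) ^ 2 + k * ((2 * s + 1 : ℕ) : ℂ) / 2 + k * (1 + m) / 2) *
            ee s ((s : ℂ) ^ 2 + m * ((2 * s + 1 : ℕ) : ℂ) / 2 + m * (1 + j) / 2) := by
          rw [← ee_add]
          congr 1
          ring
        rw [e4, ← mul_assoc (((fS (2 * s + 1) k / fS (2 * s + 1) j : ℝ) : ℂ)),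
          ← Complex.ofReal_mul (fS (2 * s + 1) k / fS (2 * s + 1) j), ← e3]
        push_cast
        ring
      · rw [if_neg h2, mul_zero, if_neg (fun hc => h2 hc.1)]
    · rw [if_neg h1, zero_mul, if_neg (fun hc => h1 hc.2)]
  rw [Finset.sum_congr rfl fun m _ => e0 m]
  split_ifs with hjk
  · obtain ⟨N, hN⟩ : ∃ N, (k : ℕ) = j + N := ⟨k - j, by omega⟩
    have e1 : ∑ m : Fin (2 * s + 1), (if (j : ℕ) ≤ m ∧ (m : ℕ) ≤ k then
        ((fS (2 * s + 1) k / fS (2 * s + 1) j : ℝ) : ℂ) *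
        (((1 / (fS (2 * s + 1) (m - j) * fS (2 * s + 1) (k - m)) : ℝ) : ℂ) *
        ee s (2 * (s : ℂ) ^ 2 + k * ((2 * s + 1 : ℕ) : ℂ) / 2 + k / 2 +
          m * (((2 * s + 1 : ℕ) : ℂ) + 1 + k + j) / 2)) else 0) =
        ((fS (2 * s + 1) k / fS (2 * s + 1) j : ℝ) : ℂ) *
        ee s (2 * (s : ℂ) ^ 2 + k * ((2 * s + 1 : ℕ) : ℂ) / 2 + k / 2 +
          j * (((2 * s + 1 : ℕ) : ℂ) + 1 + k + j) / 2) *
        ∑ r ∈ range (N + 1), tt s ^ (r.choose 2) *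
          ee s ((((2 * s + 1 : ℕ) : ℂ) + 2 + 2 * j) / 2) ^ r / (qf (tt s) r * qf (tt s) (N - r)) *
          ee s ((N : ℂ) * (N + 1) / 4 - N * ((2 * s + 1 : ℕ) : ℂ) / 4) := by
      rw [Fin.sum_univ_eq_sum_range (fun m => if (j : ℕ) ≤ m ∧ (m : ℕ) ≤ k then
        ((fS (2 * s + 1) k / fS (2 * s + 1) j : ℝ) : ℂ) *
        (((1 / (fS (2 * s + 1) (m - j) * fS (2 * s + 1) (k - m)) : ℝ) : ℂ) *
        ee s (2 * (s : ℂ) ^ 2 + k * ((2 * s + 1 : ℕ) : ℂ) / 2 + k / 2 +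
          m * (((2 * s + 1 : ℕ) : ℂ) + 1 + k + j) / 2)) else 0), Finset.mul_sum]
      symm
      refine Finset.sum_of_injOn (fun r => (j : ℕ) + r) ?_ ?_ ?_ ?_
      · intro x _ y _ hxy
        simpa using hxy
      · intro r hr
        rw [Finset.mem_coe, mem_range] at hr ⊢
        show (j : ℕ) + r < 2 * s + 1
        omega
      · intro l hl hn
        rw [if_neg]
        rintro ⟨h1, h2⟩
        apply hn
        simp only [Finset.coe_range, Set.mem_image, Set.mem_Iio]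
        exact ⟨l - j, by omega, by omega⟩
      · intro r hr
        rw [mem_range] at hr
        rw [if_pos ⟨by omega, by omega⟩, show (j : ℕ) + r - j = r by omega,
          show (k : ℕ) - (j + r) = N - r by omega, tt_pow, ee_pow, VC.qf_ee, VC.qf_ee]
        have n1 := fSc_ne (s := s) (m := r) (by omega)
        have n2 := fSc_ne (s := s) (m := N - r) (by omega)
        have n3 := ee_ne s ((r : ℂ) * (r + 1) / 4 - r * ((2 * s + 1 : ℕ) : ℂ) / 4)
        have n4 := ee_ne s (((N - r : ℕ) : ℂ) * (((N - r : ℕ) : ℂ) + 1) / 4 -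
          ((N - r : ℕ) : ℂ) * ((2 * s + 1 : ℕ) : ℂ) / 4)
        have h3 : ((r.choose 2 : ℕ) : ℂ) = (r : ℂ) * (r - 1) / 2 := Nat.cast_choose_two ℂ r
        have h4 : ee s (2 * (s : ℂ) ^ 2 + k * ((2 * s + 1 : ℕ) : ℂ) / 2 + k / 2 +
            j * (((2 * s + 1 : ℕ) : ℂ) + 1 + k + j) / 2) * (ee s ((r.choose 2 : ℕ) : ℂ) *
            ee s ((r : ℂ) * ((((2 * s + 1 : ℕ) : ℂ) + 2 + 2 * j) / 2)) *
            ee s ((N : ℂ) * (N + 1) / 4 - N * ((2 * s + 1 : ℕ) : ℂ) / 4)) =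
            ee s (2 * (s : ℂ) ^ 2 + k * ((2 * s + 1 : ℕ) : ℂ) / 2 + k / 2 +
              ((j + r : ℕ) : ℂ) * (((2 * s + 1 : ℕ) : ℂ) + 1 + k + j) / 2) *
            (ee s ((r : ℂ) * (r + 1) / 4 - r * ((2 * s + 1 : ℕ) : ℂ) / 4) *
            ee s (((N - r : ℕ) : ℂ) * (((N - r : ℕ) : ℂ) + 1) / 4 -
          ((N - r : ℕ) : ℂ) * ((2 * s + 1 : ℕ) : ℂ) / 4)) := by
          simp only [← ee_add]
          congr 1
          rw [h3, Nat.cast_sub (by omega : r ≤ N), hN]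
          push_cast
          ring
        generalize ee s ((r : ℂ) * (r + 1) / 4 - r * ((2 * s + 1 : ℕ) : ℂ) / 4) = E1 at *
        generalize ee s (((N - r : ℕ) : ℂ) * (((N - r : ℕ) : ℂ) + 1) / 4 -
          ((N - r : ℕ) : ℂ) * ((2 * s + 1 : ℕ) : ℂ) / 4) = E2 at *
        generalize ee s (2 * (s : ℂ) ^ 2 + k * ((2 * s + 1 : ℕ) : ℂ) / 2 + k / 2 +
            j * (((2 * s + 1 : ℕ) : ℂ) + 1 + k + j) / 2) = E3 at *
        generalize ee s (2 * (s : ℂ) ^ 2 + k * ((2 * s + 1 : ℕ) : ℂ) / 2 + k / 2 +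
              ((j + r : ℕ) : ℂ) * (((2 * s + 1 : ℕ) : ℂ) + 1 + k + j) / 2) = E4 at *
        generalize ee s ((r.choose 2 : ℕ) : ℂ) = E5 at *
        generalize ee s ((r : ℂ) * ((((2 * s + 1 : ℕ) : ℂ) + 2 + 2 * j) / 2)) = E6 at *
        generalize ee s ((N : ℂ) * (N + 1) / 4 - N * ((2 * s + 1 : ℕ) : ℂ) / 4) = E7 at *
        have n5 := fSc_ne (s := s) (m := j) (by omega)
        push_cast
        field_simp
        linear_combination (fS (2 * s + 1) k : ℂ) * h4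
    have e2 := qbin hp (ee s ((((2 * s + 1 : ℕ) : ℂ) + 2 + 2 * j) / 2)) N (by omega)
    have e3 : ∏ l ∈ range N, (1 + ee s ((((2 * s + 1 : ℕ) : ℂ) + 2 + 2 * j) / 2) * tt s ^ l) =
        qf (tt s) k / qf (tt s) j := by
      rw [← VC.pz_one s j k hjk (by omega), pz, hN, Finset.prod_Ico_eq_prod_range,
        Nat.add_sub_cancel_left]
      refine Finset.prod_congr rfl fun l _ => ?_
      rw [tt_pow, tt_pow, show ((((2 * s + 1 : ℕ) : ℂ) + 2 + 2 * j) / 2) =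
        ((2 * s + 1 : ℕ) : ℂ) / 2 + (1 + j) by ring, ee_add, ee_half, one_mul,
        show (((j : ℕ) + l + 1 : ℕ) : ℂ) = (1 + j) + l by push_cast; ring, ee_add s (1 + (j : ℂ))]
      ring
    rw [e3] at e2
    rw [e1, ← Finset.sum_mul]
    have n1 := qf_ne_zero hp (show N ≤ 2 * s by omega)
    have e4 : ∑ r ∈ range (N + 1), tt s ^ (r.choose 2) *
          ee s ((((2 * s + 1 : ℕ) : ℂ) + 2 + 2 * j) / 2) ^ r / (qf (tt s) r * qf (tt s) (N - r)) =
          qf (tt s) k / qf (tt s) j / qf (tt s) N := by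
      rw [← e2, mul_div_cancel_left₀ _ n1]
    rw [e4, VC.qf_ee, VC.qf_ee, VC.qf_ee, show (k : ℕ) - j = N by omega]
    have m1 := fSc_ne (s := s) (m := j) (by omega)
    have m2 := fSc_ne (s := s) (m := N) (by omega)
    have m3 := ee_ne s ((j : ℂ) * (j + 1) / 4 - j * ((2 * s + 1 : ℕ) : ℂ) / 4)
    have m4 := ee_ne s ((N : ℂ) * (N + 1) / 4 - N * ((2 * s + 1 : ℕ) : ℂ) / 4)
    have h5 : ee s (2 * (s : ℂ) ^ 2 + k * ((2 * s + 1 : ℕ) : ℂ) / 2 + k / 2 +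
          j * (((2 * s + 1 : ℕ) : ℂ) + 1 + k + j) / 2) *
          ee s ((k : ℂ) * (k + 1) / 4 - k * ((2 * s + 1 : ℕ) : ℂ) / 4) =
        ee s (2 * (s : ℂ) ^ 2 + ((k : ℂ) + j) ^ 2 / 4 + ((2 * s + 1 : ℕ) : ℂ) * (k + 3 * j) / 4 +
        (3 * k + j) / 4) * ee s ((j : ℂ) * (j + 1) / 4 - j * ((2 * s + 1 : ℕ) : ℂ) / 4) := by
      simp only [← ee_add]
      congr 1
      ring
    generalize ee s ((j : ℂ) * (j + 1) / 4 - j * ((2 * s + 1 : ℕ) : ℂ) / 4) = E1 at *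
    generalize ee s ((N : ℂ) * (N + 1) / 4 - N * ((2 * s + 1 : ℕ) : ℂ) / 4) = E2 at *
    generalize ee s (2 * (s : ℂ) ^ 2 + k * ((2 * s + 1 : ℕ) : ℂ) / 2 + k / 2 +
          j * (((2 * s + 1 : ℕ) : ℂ) + 1 + k + j) / 2) = E3 at *
    generalize ee s ((k : ℂ) * (k + 1) / 4 - k * ((2 * s + 1 : ℕ) : ℂ) / 4) = E4 at *
    generalize ee s (2 * (s : ℂ) ^ 2 + ((k : ℂ) + j) ^ 2 / 4 +
      ((2 * s + 1 : ℕ) : ℂ) * (k + 3 * j) / 4 + (3 * k + j) / 4) = E5 at *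
    push_cast
    field_simp
    linear_combination (fS (2 * s + 1) k : ℂ) ^ 2 * h5
  · refine Finset.sum_eq_zero fun m _ => ?_
    rw [if_neg]
    omega

/-! ### the kernels -/

lemma fS_zero_of_le {n m : ℕ} (hn : 0 < n) (h : n ≤ m) : fS n m = 0 := by
  unfold fS
  refine Finset.prod_eq_zero (i := n - 1) (mem_range.mpr (by omega)) ?_
  have h1 : ((n - 1 : ℕ) : ℝ) + 1 = n := by
    rw [Nat.cast_sub (by omega)]
    push_cast
    ring
  have h2 : (n : ℝ) ≠ 0 := by exact_mod_cast hn.ne'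
  rw [h1, mul_div_assoc, div_self h2, mul_one, Real.sin_pi, mul_zero]

/-- kernel of one crossing -/
noncomputable def k1 (s u v : ℕ) : ℂ :=
  ((fS (2 * s + 1) (u + v) / (fS (2 * s + 1) u * fS (2 * s + 1) v) : ℝ) : ℂ) *
    ee s (((s : ℂ) ^ 2 + 2 * s) / 2 + s * (u + v) - u * v / 2)

/-- kernel of a twist region with two crossings -/
noncomputable def k2 (s u v : ℕ) : ℂ :=
  ((((2 * s + 1 : ℕ) : ℝ) * fS (2 * s + 1) (u + v) /
    (fS (2 * s + 1) u ^ 2 * fS (2 * s + 1) v ^ 2) : ℝ) : ℂ) *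
    ee s (-(s : ℂ) ^ 2 + s * (u + v) / 2 + ((u : ℂ) - v) ^ 2 / 4)

/-- kernel of one crossing, second argument reflected -/
noncomputable def a1 (s m u : ℕ) : ℂ :=
  if u ≤ m then ((fS (2 * s + 1) m / (fS (2 * s + 1) u * fS (2 * s + 1) (m - u)) : ℝ) : ℂ) *
    ee s ((s : ℂ) ^ 2 / 2 - ((2 * s + 1 : ℕ) : ℂ) * m / 2 + m * (1 + u) / 2) else 0

/-- kernel of two crossings, second argument reflected -/
noncomputable def a2 (s m u : ℕ) : ℂ :=
  if u ≤ m then ((fS (2 * s + 1) m ^ 2 / (fS (2 * s + 1) u ^ 2 * fS (2 * s + 1) (m - u)) : ℝ) : ℂ) *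
    ee s (3 * (s : ℂ) ^ 2 + s - s * u / 2 - 3 * s * m / 2 + ((u : ℂ) + m) ^ 2 / 4) else 0

/-- the normalised kernel of a twist region -/
noncomputable def KR (s : ℕ) (b : ℤ) (u v : ℕ) : ℂ := ee s (-(b * (s : ℂ) ^ 2 / 2)) * KK s b u v

lemma ee_conj (s : ℕ) (x : ℂ) : (starRingEnd ℂ) (ee s x) = ee s (-(starRingEnd ℂ) x) := by
  unfold DT.ee
  rw [← Complex.exp_conj]
  congr 1
  simp only [map_div₀, map_mul, Complex.conj_I, Complex.conj_ofReal, map_natCast, map_ofNat]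
  ring

lemma KK_neg {s : ℕ} {b : ℤ} (hb : 0 < b) (u v : ℕ) : KK s (-b) u v =
    (starRingEnd ℂ) (KK s b u v) := by
  unfold KK
  rw [if_neg (by omega), if_pos hb.le, Int.natAbs_neg]

lemma KR_neg {s : ℕ} {b : ℤ} (hb : 0 < b) (u v : ℕ) : KR s (-b) u v =
    (starRingEnd ℂ) (KR s b u v) := by
  unfold KR
  rw [KK_neg hb, map_mul, ee_conj]
  congr 2
  simp only [map_neg, map_div₀, map_mul, map_pow, map_natCast, map_ofNat, map_intCast]
  push_cast
  ring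

lemma KR_symm {s : ℕ} (b : ℤ) {u v : ℕ} (hu : u ≤ 2 * s) (hv : v ≤ 2 * s) :
    KR s b u v = KR s b v u := by
  unfold KR
  rw [KK_symm b hu hv]

lemma KK_pos_eq {s a : ℕ} {u v : ℕ} (hu : u ≤ 2 * s) (hv : v ≤ 2 * s) :
    KK s (a : ℤ) u v = (AA s ^ a) ⟨2 * s - u, by omega⟩ ⟨v, by omega⟩ := by
  unfold KK
  rw [if_pos (by omega), Int.natAbs_natCast, AA_KN]
  simp only
  rw [show 2 * s - (2 * s - u) = u by omega]

lemma k2_symm (s u v : ℕ) : k2 s u v = k2 s v u := by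
  unfold k2
  rw [add_comm u v, mul_comm (fS (2 * s + 1) u ^ 2), add_comm (u : ℂ) v,
    show ((u : ℂ) - v) ^ 2 = ((v : ℂ) - u) ^ 2 by ring]

/-- twist regions with two crossings -/
theorem KR_two {s u v : ℕ} (hu : u ≤ 2 * s) (hv : v ≤ 2 * s) : KR s 2 u v = k2 s u v := by
  have e0 : KK s 2 u v = (AA s ^ 2) ⟨2 * s - u, by omega⟩ ⟨v, by omega⟩ := KK_pos_eq (a := 2) hu hv
  unfold KR k2
  rw [e0, AA_sq]
  simp only
  split_ifs with h
  · have n1 := fSc_ne (s := s) hu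
    have n2 := fSc_ne (s := s) hv
    have n3 := fSc_ne (s := s) (m := 2 * s - u) (by omega)
    have n4 := fSc_ne (s := s) (m := u + v) (by omega)
    have r1 := fSc_refl (s := s) hu
    have r2 := fSc_refl (s := s) (m := u + v) (by omega)
    have n5 := fSc_ne (s := s) (m := 2 * s - u - v) (by omega)
    rw [show 2 * s - (u + v) = 2 * s - u - v by omega] at r2
    have e1 : (((fS (2 * s + 1) (2 * s - u) ^ 2 / (fS (2 * s + 1) v ^ 2 *
        fS (2 * s + 1) (2 * s - u - v)) : ℝ)) : ℂ) =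
        ((((2 * s + 1 : ℕ) : ℝ) * fS (2 * s + 1) (u + v) /
        (fS (2 * s + 1) u ^ 2 * fS (2 * s + 1) v ^ 2) : ℝ) : ℂ) := by
      simp only [Complex.ofReal_div, Complex.ofReal_mul, Complex.ofReal_pow, Complex.ofReal_natCast]
      rw [div_eq_div_iff (mul_ne_zero (pow_ne_zero _ n2) n5)
        (mul_ne_zero (pow_ne_zero _ n1) (pow_ne_zero _ n2))]
      have e2 : (fS (2 * s + 1) (2 * s - u) : ℂ) ^ 2 * ((fS (2 * s + 1) u : ℂ) ^ 2 *
          (fS (2 * s + 1) v : ℂ) ^ 2) = ((fS (2 * s + 1) u : ℂ) * fS (2 * s + 1) (2 * s - u)) ^ 2 *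
          (fS (2 * s + 1) v : ℂ) ^ 2 := by ring
      rw [e2, r1, ← r2]
      ring
    have e3 : ee s (-(((2 : ℤ) : ℂ) * (s : ℂ) ^ 2 / 2)) * ee s (2 * (s : ℂ) ^ 2 +
        (((2 * s - u : ℕ) : ℂ) + v) ^ 2 / 4 + ((2 * s + 1 : ℕ) : ℂ) * (((2 * s - u : ℕ) : ℂ) +
          3 * v) / 4 + (3 * ((2 * s - u : ℕ) : ℂ) + v) / 4) =
        ee s (-(s : ℂ) ^ 2 + s * (u + v) / 2 + ((u : ℂ) - v) ^ 2 / 4) := by
      rw [← ee_add]
      have e4 : -(((2 : ℤ) : ℂ) * (s : ℂ) ^ 2 / 2) + (2 * (s : ℂ) ^ 2 +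
        (((2 * s - u : ℕ) : ℂ) + v) ^ 2 / 4 + ((2 * s + 1 : ℕ) : ℂ) * (((2 * s - u : ℕ) : ℂ) +
          3 * v) / 4 + (3 * ((2 * s - u : ℕ) : ℂ) + v) / 4) =
          (-(s : ℂ) ^ 2 + s * (u + v) / 2 + ((u : ℂ) - v) ^ 2 / 4) +
          (((2 * s - u + v : ℤ)) : ℂ) * ((2 * s + 1 : ℕ) : ℂ) := by
        rw [Nat.cast_sub (by omega)]
        push_cast
        ring
      rw [e4, ee_add, ee_int, mul_one]
    rw [e1, ← e3]
    ring
  · rw [fS_zero_of_le (show 0 < 2 * s + 1 by omega) (show 2 * s + 1 ≤ u + v by omega)]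
    simp

/-- one crossing -/
theorem KR_one {s u v : ℕ} (hu : u ≤ 2 * s) (hv : v ≤ 2 * s) : KR s 1 u v = k1 s u v := by
  have e0 : KK s 1 u v = (AA s ^ 1) ⟨2 * s - u, by omega⟩ ⟨v, by omega⟩ := KK_pos_eq (a := 1) hu hv
  unfold KR k1
  rw [e0, pow_one, AA_eq]
  simp only
  split_ifs with h
  · have n1 := fSc_ne (s := s) hu
    have n2 := fSc_ne (s := s) hv
    have n3 := fSc_ne (s := s) (m := 2 * s - u) (by omega)
    have n4 := fSc_ne (s := s) (m := u + v) (by omega)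
    have r1 := fSc_refl (s := s) hu
    have r2 := fSc_refl (s := s) (m := u + v) (by omega)
    have n5 := fSc_ne (s := s) (m := 2 * s - u - v) (by omega)
    rw [show 2 * s - (u + v) = 2 * s - u - v by omega] at r2
    have e1 : (((fS (2 * s + 1) (2 * s - u) / (fS (2 * s + 1) v *
        fS (2 * s + 1) (2 * s - u - v)) : ℝ)) : ℂ) =
        ((fS (2 * s + 1) (u + v) / (fS (2 * s + 1) u * fS (2 * s + 1) v) : ℝ) : ℂ) := by
      simp only [Complex.ofReal_div, Complex.ofReal_mul]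
      rw [div_eq_div_iff (mul_ne_zero n2 n5) (mul_ne_zero n1 n2)]
      have e2 : (fS (2 * s + 1) (2 * s - u) : ℂ) * ((fS (2 * s + 1) u : ℂ) *
          (fS (2 * s + 1) v : ℂ)) = ((fS (2 * s + 1) u : ℂ) * fS (2 * s + 1) (2 * s - u)) *
          (fS (2 * s + 1) v : ℂ) := by ring
      rw [e2, r1, ← r2]
      ring
    have e3 : ee s (-(((1 : ℤ) : ℂ) * (s : ℂ) ^ 2 / 2)) * ee s ((s : ℂ) ^ 2 +
        ((2 * s - u : ℕ) : ℂ) * ((2 * s + 1 : ℕ) : ℂ) / 2 + ((2 * s - u : ℕ) : ℂ) * (1 + v) / 2) =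
        ee s (((s : ℂ) ^ 2 + 2 * s) / 2 + s * (u + v) - u * v / 2) := by
      rw [← ee_add]
      have e4 : -(((1 : ℤ) : ℂ) * (s : ℂ) ^ 2 / 2) + ((s : ℂ) ^ 2 +
        ((2 * s - u : ℕ) : ℂ) * ((2 * s + 1 : ℕ) : ℂ) / 2 + ((2 * s - u : ℕ) : ℂ) * (1 + v) / 2) =
          (((s : ℂ) ^ 2 + 2 * s) / 2 + s * (u + v) - u * v / 2) +
          (((s - u : ℤ)) : ℂ) * ((2 * s + 1 : ℕ) : ℂ) := by
        rw [Nat.cast_sub (by omega)]
        push_cast
        ring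
      rw [e4, ee_add, ee_int, mul_one]
    rw [e1, ← e3]
    ring
  · rw [fS_zero_of_le (show 0 < 2 * s + 1 by omega) (show 2 * s + 1 ≤ u + v by omega)]
    simp

theorem KR_neg_one {s u v : ℕ} (hu : u ≤ 2 * s) (hv : v ≤ 2 * s) :
    KR s (-1) u v = (starRingEnd ℂ) (k1 s u v) := by
  rw [KR_neg (by norm_num), KR_one hu hv]

/-- the entries of the matrix of `σ_1` -/
lemma a1_eq {s : ℕ} (m u : Fin (2 * s + 1)) :
    ee s (-((s : ℂ) ^ 2 / 2)) * AA s m u = a1 s m u := by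
  rw [AA_eq]
  unfold a1
  split_ifs with h
  · have e4 : -((s : ℂ) ^ 2 / 2) + ((s : ℂ) ^ 2 + m * ((2 * s + 1 : ℕ) : ℂ) / 2 + m * (1 + u) / 2) =
        ((s : ℂ) ^ 2 / 2 - ((2 * s + 1 : ℕ) : ℂ) * m / 2 + m * (1 + u) / 2) +
        (((m : ℕ) : ℤ) : ℂ) * ((2 * s + 1 : ℕ) : ℂ) := by
      push_cast
      ring
    have e5 : ee s (-((s : ℂ) ^ 2 / 2)) * ee s ((s : ℂ) ^ 2 + m * ((2 * s + 1 : ℕ) : ℂ) / 2 +
        m * (1 + u) / 2) = ee s ((s : ℂ) ^ 2 / 2 - ((2 * s + 1 : ℕ) : ℂ) * m / 2 +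
          m * (1 + u) / 2) := by
      rw [← ee_add, e4, ee_add, ee_int, mul_one]
    rw [← e5]
    ring
  · rw [mul_zero]

lemma a2_eq {s : ℕ} (m u : Fin (2 * s + 1)) :
    ee s (-(s : ℂ) ^ 2) * (AA s ^ 2) m u = a2 s m u := by
  rw [AA_sq]
  unfold a2
  split_ifs with h
  · have e4 : -(s : ℂ) ^ 2 + (2 * (s : ℂ) ^ 2 + ((m : ℂ) + u) ^ 2 / 4 +
        ((2 * s + 1 : ℕ) : ℂ) * (m + 3 * u) / 4 + (3 * m + u) / 4) =
        (3 * (s : ℂ) ^ 2 + s - s * u / 2 - 3 * s * m / 2 + ((u : ℂ) + m) ^ 2 / 4) +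
        ((((m : ℕ) + (u : ℕ) - s : ℤ)) : ℂ) * ((2 * s + 1 : ℕ) : ℂ) := by
      push_cast
      ring
    have e5 : ee s (-(s : ℂ) ^ 2) * ee s (2 * (s : ℂ) ^ 2 + ((m : ℂ) + u) ^ 2 / 4 +
        ((2 * s + 1 : ℕ) : ℂ) * (m + 3 * u) / 4 + (3 * m + u) / 4) =
        ee s (3 * (s : ℂ) ^ 2 + s - s * u / 2 - 3 * s * m / 2 + ((u : ℂ) + m) ^ 2 / 4) := by
      rw [← ee_add, e4, ee_add, ee_int, mul_one]
    rw [← e5]
    ring
  · rw [mul_zero]

/-- twist regions with three crossings -/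
theorem KR_three {s u v : ℕ} (hu : u ≤ 2 * s) (hv : v ≤ 2 * s) :
    KR s 3 u v = ∑ m : Fin (2 * s + 1), k2 s u m * a1 s m v := by
  have e0 : KK s 3 u v = (AA s ^ 3) ⟨2 * s - u, by omega⟩ ⟨v, by omega⟩ := KK_pos_eq (a := 3) hu hv
  unfold KR
  rw [e0, show AA s ^ 3 = AA s ^ 2 * AA s from pow_succ _ _, Matrix.mul_apply, Finset.mul_sum]
  refine Finset.sum_congr rfl fun m _ => ?_
  have hm := m.isLt
  have e1 := KR_two (s := s) hu (show (m : ℕ) ≤ 2 * s by omega)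
  have e2 := a1_eq m ⟨v, by omega⟩
  have e3 : KK s 2 u m = (AA s ^ 2) ⟨2 * s - u, by omega⟩ ⟨m, by omega⟩ :=
    KK_pos_eq (a := 2) hu (by omega)
  simp only at e2
  rw [← e1, ← e2, KR, e3]
  have e4 : ee s (-(((3 : ℤ) : ℂ) * (s : ℂ) ^ 2 / 2)) =
      ee s (-(((2 : ℤ) : ℂ) * (s : ℂ) ^ 2 / 2)) * ee s (-((s : ℂ) ^ 2 / 2)) := by
    rw [← ee_add]
    congr 1
    push_cast
    ring
  rw [e4]
  ring

/-- twist regions with four crossings -/
theorem KR_four {s u v : ℕ} (hu : u ≤ 2 * s) (hv : v ≤ 2 * s) :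
    KR s 4 u v = ∑ m : Fin (2 * s + 1), k2 s u m * a2 s m v := by
  have e0 : KK s 4 u v = (AA s ^ 4) ⟨2 * s - u, by omega⟩ ⟨v, by omega⟩ := KK_pos_eq (a := 4) hu hv
  unfold KR
  rw [e0, show (4 : ℕ) = 2 + 2 from rfl, pow_add, Matrix.mul_apply, Finset.mul_sum]
  refine Finset.sum_congr rfl fun m _ => ?_
  have hm := m.isLt
  have e1 := KR_two (s := s) hu (show (m : ℕ) ≤ 2 * s by omega)
  have e2 := a2_eq m ⟨v, by omega⟩
  have e3 : KK s 2 u m = (AA s ^ 2) ⟨2 * s - u, by omega⟩ ⟨m, by omega⟩ :=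
    KK_pos_eq (a := 2) hu (by omega)
  simp only at e2
  rw [← e1, ← e2, KR, e3]
  have e4 : ee s (-(((4 : ℤ) : ℂ) * (s : ℂ) ^ 2 / 2)) =
      ee s (-(((2 : ℤ) : ℂ) * (s : ℂ) ^ 2 / 2)) * ee s (-(s : ℂ) ^ 2) := by
    rw [← ee_add]
    congr 1
    push_cast
    ring
  rw [e4]
  ring

/-- the same with the other orientation -/
theorem KR_three' {s u v : ℕ} (hu : u ≤ 2 * s) (hv : v ≤ 2 * s) :
    KR s 3 u v = ∑ m : Fin (2 * s + 1), a1 s m u * k2 s m v := by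
  rw [KR_symm 3 hu hv, KR_three hv hu]
  refine Finset.sum_congr rfl fun m _ => ?_
  have hm := m.isLt
  rw [mul_comm, k2_symm]

/-- the same with the other orientation -/
theorem KR_four' {s u v : ℕ} (hu : u ≤ 2 * s) (hv : v ≤ 2 * s) :
    KR s 4 u v = ∑ m : Fin (2 * s + 1), a2 s m u * k2 s m v := by
  rw [KR_symm 4 hu hv, KR_four hv hu]
  refine Finset.sum_congr rfl fun m _ => ?_
  have hm := m.isLt
  rw [mul_comm, k2_symm]

/-! ### negative twist regions -/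

theorem KR_neg_two {s u v : ℕ} (hu : u ≤ 2 * s) (hv : v ≤ 2 * s) :
    KR s (-2) u v = (starRingEnd ℂ) (k2 s u v) := by
  rw [KR_neg (by norm_num), KR_two hu hv]

theorem KR_neg_three {s u v : ℕ} (hu : u ≤ 2 * s) (hv : v ≤ 2 * s) :
    KR s (-3) u v = ∑ m : Fin (2 * s + 1),
      (starRingEnd ℂ) (k2 s u m) * (starRingEnd ℂ) (a1 s m v) := by
  rw [KR_neg (by norm_num), KR_three hu hv, map_sum]
  exact Finset.sum_congr rfl fun m _ => map_mul _ _ _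

theorem KR_neg_three' {s u v : ℕ} (hu : u ≤ 2 * s) (hv : v ≤ 2 * s) :
    KR s (-3) u v = ∑ m : Fin (2 * s + 1),
      (starRingEnd ℂ) (a1 s m u) * (starRingEnd ℂ) (k2 s m v) := by
  rw [KR_neg (by norm_num), KR_three' hu hv, map_sum]
  exact Finset.sum_congr rfl fun m _ => map_mul _ _ _

theorem KR_neg_four {s u v : ℕ} (hu : u ≤ 2 * s) (hv : v ≤ 2 * s) :
    KR s (-4) u v = ∑ m : Fin (2 * s + 1),
      (starRingEnd ℂ) (k2 s u m) * (starRingEnd ℂ) (a2 s m v) := by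
  rw [KR_neg (by norm_num), KR_four hu hv, map_sum]
  exact Finset.sum_congr rfl fun m _ => map_mul _ _ _

theorem KR_neg_four' {s u v : ℕ} (hu : u ≤ 2 * s) (hv : v ≤ 2 * s) :
    KR s (-4) u v = ∑ m : Fin (2 * s + 1),
      (starRingEnd ℂ) (a2 s m u) * (starRingEnd ℂ) (k2 s m v) := by
  rw [KR_neg (by norm_num), KR_four' hu hv, map_sum]
  exact Finset.sum_congr rfl fun m _ => map_mul _ _ _

/-- long twist regions -/
theorem KR_path {s u v : ℕ} (b : ℤ) (hu : u ≤ 2 * s) {ρ : ℝ} (hρ : 0 < ρ) :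
    KR s b u v = (Complex.I * ((2 * s + 1 : ℕ) : ℂ) ^ 2 / 2) *
      ((1 / (fS (2 * s + 1) u ^ 2 * fS (2 * s + 1) v ^ 2) : ℝ) : ℂ) *
      ∫ σ in (-(1 / 2) : ℝ)..(1 / 2), EE (2 * s + 1) b ρ σ *
        (PP (2 * s + 1) u (zt ρ σ) * PP (2 * s + 1) v (zt ρ σ)) := by
  unfold KR
  rw [KK_path b hu hρ]
  have e1 : ee s (-(b * (s : ℂ) ^ 2 / 2)) * Complex.exp (Real.pi * Complex.I * b * s ^ 2 /
      ((2 * s + 1 : ℕ) : ℂ)) = 1 := by
    unfold DT.ee
    rw [← Complex.exp_add, ← Complex.exp_zero]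
    congr 1
    ring
  rw [← mul_assoc, ← mul_assoc, ← mul_assoc, e1, one_mul]

/-- the invariant as a sum over chains of normalised kernels -/
theorem chainR {M : ℕ} (b : Fin (M + 1) → ℤ) (δ : ℤ) {s : ℕ} (hs : 1 ≤ s) :
    twoBridgeKashaev (ltWord (List.ofFn b)) δ (2 * s + 1) =
      phs (orientedWrithe (ltWord (List.ofFn b)) ![1, δ, -δ]) (∑ i, b i) s *
      ∑ y : Fin M → Fin (2 * s + 1), ∏ i : Fin (M + 1), KR s (b i) (Li y i) (Ri y i) := by
  rw [chain b δ hs, phs, mul_assoc (Complex.exp _) (Complex.exp _)]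
  congr 1
  rw [Finset.mul_sum]
  refine Finset.sum_congr rfl fun y _ => ?_
  unfold KR
  rw [Finset.prod_mul_distrib, ← mul_assoc]
  have e1 : Complex.exp (Real.pi * Complex.I * ((∑ i, b i : ℤ) : ℂ) * s ^ 2 /
      ((2 * s + 1 : ℕ) : ℂ)) * ∏ i : Fin (M + 1), ee s (-(b i * (s : ℂ) ^ 2 / 2)) = 1 := by
    unfold DT.ee
    rw [← Complex.exp_sum, ← Complex.exp_add, ← Complex.exp_zero]
    congr 1
    rw [← Finset.sum_div, ← Finset.mul_sum, Finset.sum_neg_distrib, ← Finset.sum_div,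
      ← Finset.sum_mul]
    push_cast
    ring
  rw [e1, one_mul]
  rfl

end Pool.Agent.Work.MP_b30479_gt.LT
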